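import Pool.Agent.Helper33.Iso.Goals

/-!
# Isolated linear quotient orbifolds: the explicit points avoid each other
-/

set_option autoImplicit false

open RealInnerProductSpace
open Pool.Agent.Helper72.Orb

namespace Pool.Agent.Helper23.Iso

universe u w

/-- The norm of a combination of two unit vectors. -/
theorem comb_sq {V : Type w} [NormedAddCommGroup V] [InnerProductSpace ℝ V] {u p : V}
    (hu : ‖u‖ = 1) (hp : ‖p‖ = 1) (a b : ℝ) :
    ‖a • u + b • p‖ ^ 2 = a ^ 2 + b ^ 2 + 2 * a * b * ⟪u, p⟫ := by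
  rw [norm_add_sq_real, norm_smul, norm_smul, hu, hp, real_inner_smul_left,
    real_inner_smul_right]
  simp only [mul_one, Real.norm_eq_abs, sq_abs]
  ring

theorem gAVOID : Pool.Agent.Helper33.Iso.AVOID.{u, w} := by
  intro H _ V _ _ _ hV c δ hc hc2 hgap hδ hδc u v p t hu hv hp ht0 ht1 hor h heq
  have hcc : c ^ 2 ≤ 2 ^ 2 := pow_le_pow_left₀ hc.le hc2 2
  have hcc' : c * c ≤ 2 * c := mul_le_mul_of_nonneg_right hc2 hc.le
  have hδ8 : δ < 1 / 8 := by linarith
  have hδ1 : δ < c := by
    rw [pow_two] at hδc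
    linarith
  rcases hor with rfl | rfl
  · -- `t = 0`
    have hX : ((1 - 0 : ℝ) • u + (0 : ℝ) • p) = u := by simp
    rw [hX] at heq
    have hY : h • u - u = δ • v := by
      rw [← heq]; simp
    by_cases h1 : h = 1
    · subst h1
      rw [one_smul, sub_self] at hY
      have h2 := congrArg norm hY
      rw [norm_zero, norm_smul, hv, mul_one, Real.norm_eq_abs, abs_of_pos hδ] at h2
      linarith
    · have h2 := hgap h h1 u
      rw [hY, norm_smul, hu, hv, mul_one, mul_one, Real.norm_eq_abs, abs_of_pos hδ] at h2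
      linarith
  · -- `v = -p`
    set k : ℝ := ⟪u, p⟫ with hk
    have hk1 : k ≤ 1 := by
      have h2 := real_inner_le_norm u p
      rw [hu, hp, mul_one] at h2
      exact h2
    have hpp : ⟪p, p⟫ = (1 : ℝ) := by rw [real_inner_self_eq_norm_sq, hp]; norm_num
    by_cases h1 : h = 1
    · subst h1
      rw [one_smul] at heq
      have h3 : (t * (2 - δ)) • (u - p) + δ • (-p) = 0 := by
        have h4 : ((1 - t) • u + t • p) + ((t * (2 - δ)) • (u - p) + δ • (-p)) =
            ((1 - t) • u + t • p) + 0 := by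
          rw [add_zero, ← add_assoc]; exact heq
        exact add_left_cancel h4
      have h5 := congrArg (fun z : V => ⟪z, p⟫) h3
      simp only [inner_add_left, real_inner_smul_left, inner_sub_left, inner_neg_left,
        inner_zero_left, hpp] at h5
      rw [← hk] at h5
      have h6 : 0 ≤ t * (2 - δ) * (1 - k) :=
        mul_nonneg (mul_nonneg ht0 (by linarith)) (by linarith)
      nlinarith
    · have hYv : ((1 - t) • u + t • p) + (t * (2 - δ)) • (u - p) + δ • (-p) =
          (1 + t - δ * t) • u + (-(t + δ - δ * t)) • p := by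
        module
      have hDv : h • ((1 - t) • u + t • p) - ((1 - t) • u + t • p) =
          (t * (2 - δ)) • u + (-(t * (2 - δ) + δ)) • p := by
        rw [← heq]; module
      have hnX := comb_sq hu hp (1 - t) t
      have hnY := comb_sq hu hp (1 + t - δ * t) (-(t + δ - δ * t))
      have hnD := comb_sq hu hp (t * (2 - δ)) (-(t * (2 - δ) + δ))
      rw [← hk] at hnX hnY hnD
      have hYX : ‖((1 - t) • u + t • p) + (t * (2 - δ)) • (u - p) + δ • (-p)‖ =
          ‖(1 - t) • u + t • p‖ := by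
        rw [heq, hV.norm_smul]
      rw [hYv] at hYX
      rw [hYX, hnX] at hnY
      have hg := hgap h h1 ((1 - t) • u + t • p)
      rw [hDv] at hg
      have hg2 : c ^ 2 * ‖(1 - t) • u + t • p‖ ^ 2 ≤
          ‖(t * (2 - δ)) • u + (-(t * (2 - δ) + δ)) • p‖ ^ 2 := by
        rw [← mul_pow]
        exact pow_le_pow_left₀ (mul_nonneg hc.le (norm_nonneg _)) hg 2
      rw [hnX, hnD] at hg2
      -- `α β (1 - k) ≤ δ`
      have hkk : 0 ≤ 1 - k := by linarith
      have ht1' : 0 ≤ 1 - t := by linarith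
      have hα : 1 ≤ 1 + t - δ * t := by
        have := mul_le_mul_of_nonneg_right (by linarith : δ ≤ 1) ht0
        linarith
      have hβ : t / 2 ≤ t + δ - δ * t := by
        have := mul_nonneg hδ.le ht1'
        linarith
      have hq : 2 * ((1 + t - δ * t) * (t + δ - δ * t) * (1 - k)) =
          2 * δ - δ ^ 2 - 2 * (t * (1 - t) * (1 - k)) := by
        linear_combination (-1) * hnY
      have e1 : (1 + t - δ * t) * (t + δ - δ * t) * (1 - k) ≤ δ := by
        have h7 : 0 ≤ t * (1 - t) * (1 - k) := mul_nonneg (mul_nonneg ht0 ht1') hkk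
        have h7' : 0 ≤ δ ^ 2 := sq_nonneg δ
        linarith
      have e2 : t / 2 * (1 - k) ≤ (1 + t - δ * t) * (t + δ - δ * t) * (1 - k) := by
        apply mul_le_mul_of_nonneg_right _ hkk
        have h8 : 0 ≤ t + δ - δ * t := by linarith [div_nonneg ht0 (by norm_num : (0:ℝ) ≤ 2)]
        calc t / 2 ≤ 1 * (t + δ - δ * t) := by linarith
          _ ≤ (1 + t - δ * t) * (t + δ - δ * t) := mul_le_mul_of_nonneg_right hα h8
      have e3 : t * (1 - k) ≤ 2 * δ := by linarith
      have e4 : 0 ≤ t * (1 - k) := mul_nonneg ht0 hkk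
      -- the norm of `X`
      have e5 : 1 / 2 ≤ (1 - t) ^ 2 + t ^ 2 + 2 * (1 - t) * t * k := by
        have h9 : (1 - t) * (t * (1 - k)) ≤ 1 * (2 * δ) :=
          mul_le_mul (by linarith) e3 e4 (by norm_num)
        have h9' : (1 - t) ^ 2 + t ^ 2 + 2 * (1 - t) * t * k =
            1 - 2 * ((1 - t) * (t * (1 - k))) := by ring
        rw [h9']; linarith
      -- the norm of the difference
      have e6 : (t * (2 - δ)) ^ 2 + (-(t * (2 - δ) + δ)) ^ 2 +
          2 * (t * (2 - δ)) * (-(t * (2 - δ) + δ)) * k ≤ 25 * δ := by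
        have h10 : (t * (2 - δ)) ^ 2 + (-(t * (2 - δ) + δ)) ^ 2 +
            2 * (t * (2 - δ)) * (-(t * (2 - δ) + δ)) * k =
            2 * (2 - δ) ^ 2 * t * (t * (1 - k)) + 2 * (2 - δ) * δ * (t * (1 - k)) + δ * δ := by
          ring
        rw [h10]
        have h2δ : 0 ≤ 2 - δ := by linarith
        have h11a : (2 - δ) ^ 2 ≤ 2 ^ 2 := pow_le_pow_left₀ h2δ (by linarith) 2
        have h11 : 2 * (2 - δ) ^ 2 * t ≤ 8 * 1 :=
          mul_le_mul (by linarith) ht1 ht0 (by norm_num)
        have h12 : 2 * (2 - δ) ^ 2 * t * (t * (1 - k)) ≤ 8 * 1 * (2 * δ) :=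
          mul_le_mul h11 e3 e4 (by norm_num)
        have h13 : 2 * (2 - δ) * δ ≤ 4 * 1 :=
          mul_le_mul (by linarith) (by linarith) hδ.le (by norm_num)
        have h14 : 2 * (2 - δ) * δ * (t * (1 - k)) ≤ 4 * 1 * (2 * δ) :=
          mul_le_mul h13 e3 e4 (by norm_num)
        have h15 : δ * δ ≤ 1 * δ := mul_le_mul_of_nonneg_right (by linarith) hδ.le
        linarith
      have e7 : c ^ 2 * (1 / 2) ≤ c ^ 2 * ((1 - t) ^ 2 + t ^ 2 + 2 * (1 - t) * t * k) :=
        mul_le_mul_of_nonneg_left e5 (by positivity)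
      linarith

end Pool.Agent.Helper23.Iso
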